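import Mathlib

/-!
# Rotund norms and trees with constant monotone functions (analysis part)
-/

open Set Cardinal

namespace Pool.Agent.RR59

/-- `N` is an equivalent norm on the normed space `X`. -/
structure EquivNorm (X : Type) [NormedAddCommGroup X] [NormedSpace ℝ X] (N : X → ℝ) : Prop where
  add_le : ∀ x y, N (x + y) ≤ N x + N y
  smul : ∀ (r : ℝ) (x : X), N (r • x) = |r| * N x
  equiv : ∃ c C : ℝ, 0 < c ∧ 0 < C ∧ ∀ x, c * ‖x‖ ≤ N x ∧ N x ≤ C * ‖x‖

/-- The norm `N` is rotund (strictly convex). -/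
def Rotund {X : Type} [NormedAddCommGroup X] (N : X → ℝ) : Prop :=
  ∀ x y, N (x + y) = 2 * N x → 2 * N x = 2 * N y → x = y

/-- The density of the topological space `X` is `κ`. -/
def HasDensity (X : Type) [TopologicalSpace X] (κ : Cardinal.{0}) : Prop :=
  (∃ D : Set X, Dense D ∧ #D = κ) ∧ ∀ D : Set X, Dense D → κ ≤ #D

section abstract_part

variable {X : Type} [NormedAddCommGroup X] [NormedSpace ℝ X] {N : X → ℝ}

theorem EquivNorm.sum_le (hN : EquivNorm X N) (y : ℕ → X) (n : ℕ) :
    N (∑ i ∈ Finset.range n, y i) ≤ ∑ i ∈ Finset.range n, N (y i) := by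
  induction n with
  | zero =>
    have h := hN.smul 0 0
    simp only [zero_smul, abs_zero, zero_mul] at h
    simp [h]
  | succ n ih =>
    rw [Finset.sum_range_succ, Finset.sum_range_succ]
    exact (hN.add_le _ _).trans (add_le_add ih le_rfl)

theorem EquivNorm.nonneg (hN : EquivNorm X N) (x : X) : 0 ≤ N x := by
  obtain ⟨c, C, hc, hC, h⟩ := hN.equiv
  exact (mul_nonneg hc.le (norm_nonneg x)).trans (h x).1

/-- The abstract flatness argument. -/
theorem not_rotund {T : Type} [PartialOrder T] (e : T → X) (he : ∀ t, ‖e t‖ ≤ 1)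
    (h2 : ∀ μ : T → ℝ, Monotone μ → (∃ C, ∀ t, μ t ≤ C) → ∃ t, ∀ u, t ≤ u → μ u = μ t)
    (h3 : ∀ t, ∃ c : ℕ → T, (∀ i, t ≤ c i) ∧ e (c 0) ≠ e t ∧ ∀ (n : ℕ) (y : ℕ → X), 0 < n →
      (∀ i, y i ∈ convexHull ℝ (e '' Ici (c i))) →
      ‖e t - (1 / (n : ℝ)) • ∑ i ∈ Finset.range n, y i‖ ≤ 1 / n)
    (hN : EquivNorm X N) : ¬ Rotund N := by
  intro hR
  obtain ⟨c, C, hc, hC, hcC⟩ := hN.equiv
  set F : T → Set X := fun t => convexHull ℝ (e '' Ici t) with hF
  have hFmono : ∀ t u, t ≤ u → F u ⊆ F t := fun t u h =>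
    convexHull_mono (image_mono (Ici_subset_Ici.2 h))
  have heF : ∀ t u, t ≤ u → e u ∈ F t := fun t u h =>
    subset_convexHull ℝ _ ⟨u, h, rfl⟩
  set μ : T → ℝ := fun t => sInf (N '' F t) with hμ
  have hbdd : ∀ t, BddBelow (N '' F t) := fun t => ⟨0, by
    rintro _ ⟨x, _, rfl⟩
    exact hN.nonneg x⟩
  have hμle : ∀ t x, x ∈ F t → μ t ≤ N x := fun t x hx => csInf_le (hbdd t) ⟨x, hx, rfl⟩
  have hmono : Monotone μ := fun t u h =>
    csInf_le_csInf (hbdd t) ⟨_, e u, heF u u le_rfl, rfl⟩ (image_mono (hFmono t u h))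
  have hNe : ∀ t, N (e t) ≤ C := fun t =>
    (hcC _).2.trans (by nlinarith [he t])
  obtain ⟨t, ht⟩ := h2 μ hmono ⟨C, fun t => (hμle t _ (heF t t le_rfl)).trans (hNe t)⟩
  set m := μ t with hm
  -- the norm of `e u` is `m` for all `u ≥ t`
  have key : ∀ u, t ≤ u → N (e u) = m := by
    intro u hu
    apply le_antisymm _ ((ht u hu).symm.le.trans (hμle u _ (heF u u le_rfl)))
    apply le_of_forall_pos_le_add
    intro ε hε
    obtain ⟨n, hn⟩ := exists_nat_gt (2 * C / ε)
    have hn0 : 0 < (n : ℝ) := lt_of_le_of_lt (by positivity) hn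
    have hn0' : 0 < n := by exact_mod_cast hn0
    obtain ⟨d, hd1, -, hd3⟩ := h3 u
    have hex : ∀ i, ∃ y ∈ F (d i), N y < m + ε / 2 := by
      intro i
      have h1 : μ (d i) < m + ε / 2 := by
        rw [ht (d i) (hu.trans (hd1 i))]
        linarith
      obtain ⟨_, ⟨y, hy, rfl⟩, hlt⟩ := exists_lt_of_csInf_lt
        (⟨_, e (d i), heF _ _ le_rfl, rfl⟩ : (N '' F (d i)).Nonempty) h1
      exact ⟨y, hy, hlt⟩
    choose y hy hyN using hex
    have hav := hd3 n y hn0' hy
    set z := (1 / (n : ℝ)) • ∑ i ∈ Finset.range n, y i with hz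
    have h4 : N z ≤ m + ε / 2 := by
      rw [hz, hN.smul, abs_of_pos (by positivity)]
      have h5 : N (∑ i ∈ Finset.range n, y i) ≤ n * (m + ε / 2) := by
        refine (hN.sum_le y n).trans ?_
        refine (Finset.sum_le_sum fun i _ => (hyN i).le).trans ?_
        simp [mul_add]
      calc 1 / (n : ℝ) * N (∑ i ∈ Finset.range n, y i) ≤ 1 / (n : ℝ) * (n * (m + ε / 2)) :=
            mul_le_mul_of_nonneg_left h5 (by positivity)
        _ = m + ε / 2 := by field_simp
    have h6 : N (e u - z) ≤ ε / 2 := by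
      refine (hcC _).2.trans ?_
      refine (mul_le_mul_of_nonneg_left hav hC.le).trans ?_
      rw [mul_one_div, div_le_iff₀ hn0]
      rw [div_lt_iff₀ hε] at hn
      linarith
    calc N (e u) = N (z + (e u - z)) := by rw [add_sub_cancel]
      _ ≤ N z + N (e u - z) := hN.add_le _ _
      _ ≤ m + ε := by linarith
  obtain ⟨d, hd1, hd2, -⟩ := h3 t
  have k1 := key t le_rfl
  have k2 := key (d 0) (hd1 0)
  have hmid : (1 / 2 : ℝ) • (e t + e (d 0)) ∈ F t := by
    have := (convex_convexHull ℝ (e '' Ici t)) (heF t t le_rfl) (heF t (d 0) (hd1 0))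
      (by norm_num : (0 : ℝ) ≤ 1 / 2) (by norm_num : (0 : ℝ) ≤ 1 / 2) (by norm_num)
    rw [smul_add]
    exact this
  have k3 : m ≤ N ((1 / 2 : ℝ) • (e t + e (d 0))) := hμle t _ hmid
  rw [hN.smul, abs_of_pos (by norm_num)] at k3
  have k4 := hN.add_le (e t) (e (d 0))
  apply hd2
  symm
  apply hR
  · linarith
  · linarith

end abstract_part

/-! ### the space -/

section space

variable (T : Type) [PartialOrder T]

open Classical in
/-- the indicator function of the set of predecessors of `t` -/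
noncomputable def ind (t : T) : lp (fun _ : T => ℝ) ⊤ :=
  ⟨fun s => if s ≤ t then 1 else 0, memℓp_infty ⟨1, by
    rintro _ ⟨s, rfl⟩
    dsimp only
    split_ifs <;> simp⟩⟩

theorem ind_apply [DecidableRel (α := T) (· ≤ ·)] (t s : T) :
    (ind T t : T → ℝ) s = if s ≤ t then 1 else 0 := by
  unfold ind
  simp only
  congr

/-- the closed linear span of the indicator functions -/
noncomputable def span : Submodule ℝ (lp (fun _ : T => ℝ) ⊤) :=
  (Submodule.span ℝ (range (ind T))).topologicalClosure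

theorem ind_mem (t : T) : ind T t ∈ span T :=
  Submodule.le_topologicalClosure _ (Submodule.subset_span ⟨t, rfl⟩)

/-- the indicator function as an element of the space -/
noncomputable def el (t : T) : span T := ⟨ind T t, ind_mem T t⟩

instance : CompleteSpace (span T) :=
  (Submodule.isClosed_topologicalClosure _).completeSpace_coe

variable {T}

theorem el_coe (t : T) : ((el T t : span T) : lp (fun _ : T => ℝ) ⊤) = ind T t := rfl

theorem norm_el_le (t : T) : ‖el T t‖ ≤ 1 := by
  classical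
  change ‖ind T t‖ ≤ 1
  apply lp.norm_le_of_forall_le zero_le_one
  intro s
  rw [ind_apply]
  split_ifs <;> simp

theorem one_le_norm_el_sub {t u : T} (h : t ≠ u) : 1 ≤ ‖el T t - el T u‖ := by
  classical
  change 1 ≤ ‖ind T t - ind T u‖
  have aux : ∀ a b : T, ¬ a ≤ b → 1 ≤ ‖ind T a - ind T b‖ := by
    intro a b hab
    have := lp.norm_apply_le_norm ENNReal.top_ne_zero (ind T a - ind T b) a
    rw [lp.coeFn_sub, Pi.sub_apply, ind_apply, ind_apply, if_pos le_rfl, if_neg hab] at this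
    simpa using this
  rcases not_and_or.1 (fun h' => h (le_antisymm h'.1 h'.2)) with h1 | h1
  · exact aux _ _ h1
  · rw [norm_sub_rev]
    exact aux _ _ h1

/-- the tree condition gives the averaging property -/
theorem averaging (t : T) (c : ℕ → T) (hc : ∀ i, t ≤ c i)
    (hd : ∀ i j, i ≠ j → ∀ r, c i ≤ r → ∀ r', c j ≤ r' → ∀ s, s ≤ r → s ≤ r' → s ≤ t)
    (n : ℕ) (y : ℕ → span T) (hn : 0 < n) (hy : ∀ i, y i ∈ convexHull ℝ (el T '' Ici (c i))) :
    ‖el T t - (1 / (n : ℝ)) • ∑ i ∈ Finset.range n, y i‖ ≤ 1 / n := by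
  classical
  have hn0 : (0 : ℝ) < n := by exact_mod_cast hn
  -- evaluation
  let ev : T → span T →ₗ[ℝ] ℝ := fun s =>
    { toFun := fun x => (x : lp (fun _ : T => ℝ) ⊤) s
      map_add' := fun x y => by simp
      map_smul' := fun r x => by simp }
  have hev : ∀ s (x : span T), ev s x = (x : lp (fun _ : T => ℝ) ⊤) s := fun _ _ => rfl
  have h1 : ∀ i s, s ≤ t → ev s (y i) = 1 := by
    intro i s hs
    have : convexHull ℝ (el T '' Ici (c i)) ⊆ (ev s) ⁻¹' {1} := by
      apply convexHull_min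
      · rintro _ ⟨u, hu, rfl⟩
        change (ind T u : T → ℝ) s = 1
        rw [ind_apply, if_pos (hs.trans ((hc i).trans hu))]
      · exact (convex_singleton 1).is_linear_preimage (ev s).isLinear
    exact this (hy i)
  have h2 : ∀ i s, ev s (y i) ∈ Icc (0 : ℝ) 1 := by
    intro i s
    have : convexHull ℝ (el T '' Ici (c i)) ⊆ (ev s) ⁻¹' (Icc 0 1) := by
      apply convexHull_min
      · rintro _ ⟨u, hu, rfl⟩
        change (ind T u : T → ℝ) s ∈ Icc (0 : ℝ) 1
        rw [ind_apply]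
        split_ifs <;> simp
      · exact (convex_Icc 0 1).is_linear_preimage (ev s).isLinear
    exact this (hy i)
  have h3 : ∀ i s, (∀ r, c i ≤ r → ¬ s ≤ r) → ev s (y i) = 0 := by
    intro i s hs
    have : convexHull ℝ (el T '' Ici (c i)) ⊆ (ev s) ⁻¹' {0} := by
      apply convexHull_min
      · rintro _ ⟨u, hu, rfl⟩
        change (ind T u : T → ℝ) s = 0
        rw [ind_apply, if_neg (hs u hu)]
      · exact (convex_singleton 0).is_linear_preimage (ev s).isLinear
    exact this (hy i)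
  change ‖((el T t - (1 / (n : ℝ)) • ∑ i ∈ Finset.range n, y i : span T) :
    lp (fun _ : T => ℝ) ⊤)‖ ≤ 1 / n
  apply lp.norm_le_of_forall_le (by positivity)
  intro s
  rw [← hev, map_sub, map_smul, map_sum]
  change ‖(ind T t : T → ℝ) s - (1 / (n : ℝ)) • ∑ i ∈ Finset.range n, ev s (y i)‖ ≤ 1 / n
  rw [ind_apply]
  by_cases hs : s ≤ t
  · rw [if_pos hs, Finset.sum_congr rfl (fun i _ => h1 i s hs)]
    simp only [Finset.sum_const, Finset.card_range, nsmul_eq_mul, mul_one, smul_eq_mul]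
    rw [one_div, inv_mul_cancel₀ hn0.ne', sub_self, norm_zero]
    positivity
  · rw [if_neg hs, zero_sub, norm_neg, norm_smul]
    have h4 : |∑ i ∈ Finset.range n, ev s (y i)| ≤ 1 := by
      by_cases hex : ∃ i ∈ Finset.range n, ev s (y i) ≠ 0
      · obtain ⟨i, hi, hne⟩ := hex
        rw [Finset.sum_eq_single_of_mem i hi]
        · rw [abs_of_nonneg (h2 i s).1]
          exact (h2 i s).2
        · intro j _ hji
          by_contra hne'
          have e1 : ∃ r, c i ≤ r ∧ s ≤ r := by
            by_contra hcon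
            push Not at hcon
            exact hne (h3 i s hcon)
          have e2 : ∃ r, c j ≤ r ∧ s ≤ r := by
            by_contra hcon
            push Not at hcon
            exact hne' (h3 j s hcon)
          obtain ⟨r, hr1, hr2⟩ := e1
          obtain ⟨r', hr1', hr2'⟩ := e2
          exact hs (hd j i hji r' hr1' r hr1 s hr2' hr2)
      · push Not at hex
        rw [Finset.sum_eq_zero hex]
        simp
    rw [Real.norm_eq_abs, Real.norm_eq_abs, abs_of_pos (by positivity)]
    exact mul_le_of_le_one_right (by positivity) h4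

/-- A tree with constant monotone functions and infinite splitting gives a space without rotund norm. -/
theorem space_not_rotund
    (h2 : ∀ μ : T → ℝ, Monotone μ → (∃ C, ∀ t, μ t ≤ C) → ∃ t, ∀ u, t ≤ u → μ u = μ t)
    (h3 : ∀ t : T, ∃ c : ℕ → T, (∀ i, t ≤ c i) ∧ c 0 ≠ t ∧
      ∀ i j, i ≠ j → ∀ r, c i ≤ r → ∀ r', c j ≤ r' → ∀ s, s ≤ r → s ≤ r' → s ≤ t)
    (N : span T → ℝ) (hN : EquivNorm (span T) N) : ¬ Rotund N := by
  apply not_rotund (el T) norm_el_le h2 _ hN
  intro t
  obtain ⟨c, hc1, hc2, hc3⟩ := h3 t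
  refine ⟨c, hc1, ?_, fun n y hn hy => averaging t c hc1 hc3 n y hn hy⟩
  intro h
  have := one_le_norm_el_sub hc2
  rw [h, sub_self, norm_zero] at this
  norm_num at this

end space

end Pool.Agent.RR59
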