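import Pool.Agent.RR59.Stat

/-!
# The tree given by a nonmeagre set and a stationary family of countable sets
-/

open Set Cardinal

namespace Pool.Agent.RR59.Big

variable {A : Set (ℕ → ℕ)} {K I : Type} (g : I → ℕ → Om × K)
  (e : K → ((Om × K) × ℕ) ⊕ (I × (Om × K) × A))

open Classical in
/-- the path through the nodes `g ν` which starts at `τ` and is guided by `f` -/
noncomputable def path (D : Om × K → Set (Om × K)) (ν : I) (τ : Om × K) (f : ℕ → ℕ) : ℕ → Om × K
  | 0 => τ
  | k + 1 => if path D ν τ f k ∈ D (g ν (f k)) then g ν (f k) else path D ν τ f k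

open Classical in
/-- the set of predecessors of the node `α` -/
noncomputable def node (α : Om × K) (D : Om × K → Set (Om × K)) : Set (Om × K) :=
  match e α.2 with
  | Sum.inl (β, _) => if β.1 < α.1 then insert α (D β) else {α}
  | Sum.inr (ν, τ, f) => if (∀ k, (g ν k).1 < α.1) ∧ τ.1 < α.1 then
      insert α (⋃ k, D (path g D ν τ f k)) else {α}

theorem wf : WellFounded fun α β : Om × K => α.1 < β.1 :=
  InvImage.wf Prod.fst wellFounded_lt

open Classical in
/-- the sets of predecessors -/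
noncomputable def Dd : Om × K → Set (Om × K) :=
  WellFounded.fix (wf (K := K)) fun α IH =>
    node g e α (fun β => if h : β.1 < α.1 then IH β h else ∅)

open Classical in
theorem Dd_eq (α : Om × K) :
    Dd g e α = node g e α (fun β => if β.1 < α.1 then Dd g e β else ∅) := by
  unfold Dd
  rw [WellFounded.fix_eq]
  congr 1

theorem path_lt (D : Om × K → Set (Om × K)) {ν : I} {τ : Om × K} {ξ : Om} (hτ : τ.1 < ξ)
    (hν : ∀ k, (g ν k).1 < ξ) (f : ℕ → ℕ) (k : ℕ) : (path g D ν τ f k).1 < ξ := by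
  induction k with
  | zero => exact hτ
  | succ k ih =>
    rw [path]
    split_ifs
    · exact hν _
    · exact ih

theorem path_congr (D D' : Om × K → Set (Om × K)) {ν : I} {τ : Om × K} (f : ℕ → ℕ)
    (h : ∀ k, D (g ν k) = D' (g ν k)) (k : ℕ) : path g D ν τ f k = path g D' ν τ f k := by
  induction k with
  | zero => rfl
  | succ k ih =>
    rw [path, path, ih, h]

theorem Dd_lim {α : Om × K} {ν : I} {τ : Om × K} {f : A} (he : e α.2 = Sum.inr (ν, τ, f))
    (hν : ∀ k, (g ν k).1 < α.1) (hτ : τ.1 < α.1) :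
    Dd g e α = insert α (⋃ k, Dd g e (path g (Dd g e) ν τ f k)) := by
  classical
  rw [Dd_eq, node, he]
  simp only
  rw [if_pos ⟨hν, hτ⟩]
  congr 1
  apply iUnion_congr
  intro k
  rw [if_pos (path_lt g _ hτ hν f k)]
  congr 1
  apply path_congr g
  intro l
  rw [if_pos (hν l)]

theorem Dd_succ {α β : Om × K} {n : ℕ} (he : e α.2 = Sum.inl (β, n)) (hβ : β.1 < α.1) :
    Dd g e α = insert α (Dd g e β) := by
  rw [Dd_eq, node, he]
  simp only
  rw [if_pos hβ, if_pos hβ]

theorem self_mem (α : Om × K) : α ∈ Dd g e α := by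
  rw [Dd_eq, node]
  rcases e α.2 with ⟨β, n⟩ | ⟨δ, τ, f⟩
  · simp only
    split_ifs <;> simp
  · simp only
    split_ifs <;> simp

theorem Dd_cases (α : Om × K) : Dd g e α = {α} ∨
    (∃ β, β.1 < α.1 ∧ Dd g e α = insert α (Dd g e β)) ∨
    ∃ s : ℕ → Om × K, (∀ k, (s k).1 < α.1) ∧ (∀ k, s k ∈ Dd g e (s (k + 1))) ∧
      Dd g e α = insert α (⋃ k, Dd g e (s k)) := by
  rcases hc : e α.2 with ⟨β, n⟩ | ⟨ν, τ, f⟩
  · by_cases hβ : β.1 < α.1
    · exact Or.inr (Or.inl ⟨β, hβ, Dd_succ g e hc hβ⟩)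
    · left
      rw [Dd_eq, node, hc]
      simp only
      rw [if_neg hβ]
  · by_cases h : (∀ k, (g ν k).1 < α.1) ∧ τ.1 < α.1
    · refine Or.inr (Or.inr ⟨path g (Dd g e) ν τ f, fun k =>
        path_lt g _ h.2 h.1 f k, fun k => ?_, Dd_lim g e hc h.1 h.2⟩)
      rw [path]
      split_ifs with h1
      · exact h1
      · exact self_mem g e _
    · left
      rw [Dd_eq, node, hc]
      simp only
      rw [if_neg h]

theorem Dd_lt {α β : Om × K} (h : β ∈ Dd g e α) : β = α ∨ β.1 < α.1 := by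
  induction α using (wf (K := K)).induction generalizing β with
  | _ α ih =>
    rcases Dd_cases g e α with h1 | ⟨γ, hγ, h1⟩ | ⟨s, hs, -, h1⟩
    · rw [h1] at h
      exact Or.inl (mem_singleton_iff.1 h)
    · rw [h1] at h
      rcases h with h | h
      · exact Or.inl h
      · right
        rcases ih γ hγ h with h2 | h2
        · rw [h2]
          exact hγ
        · exact h2.trans hγ
    · rw [h1] at h
      rcases h with h | h
      · exact Or.inl h
      · obtain ⟨k, hk⟩ := mem_iUnion.1 h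
        right
        rcases ih _ (hs k) hk with h2 | h2
        · rw [h2]
          exact hs k
        · exact h2.trans (hs k)

theorem Dd_trans {α β : Om × K} (h : β ∈ Dd g e α) : Dd g e β ⊆ Dd g e α := by
  induction α using (wf (K := K)).induction generalizing β with
  | _ α ih =>
    by_cases hαβ : β = α
    · rw [hαβ]
    rcases Dd_cases g e α with h1 | ⟨γ, hγ, h1⟩ | ⟨s, hs, -, h1⟩
    · rw [h1] at h
      exact absurd (mem_singleton_iff.1 h) hαβ
    · rw [h1] at h ⊢
      rcases h with h | h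
      · exact absurd h hαβ
      · exact (ih γ hγ h).trans (subset_insert _ _)
    · rw [h1] at h ⊢
      rcases h with h | h
      · exact absurd h hαβ
      · obtain ⟨k, hk⟩ := mem_iUnion.1 h
        exact ((ih _ (hs k) hk).trans (subset_iUnion (fun k => Dd g e (s k)) k)).trans
          (subset_insert _ _)

theorem Dd_chain {α β β' : Om × K} (h : β ∈ Dd g e α) (h' : β' ∈ Dd g e α) :
    β ∈ Dd g e β' ∨ β' ∈ Dd g e β := by
  induction α using (wf (K := K)).induction generalizing β β' with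
  | _ α ih =>
    by_cases hαβ : β = α
    · rw [hαβ]
      exact Or.inr h'
    by_cases hαβ' : β' = α
    · rw [hαβ']
      exact Or.inl h
    rcases Dd_cases g e α with h1 | ⟨γ, hγ, h1⟩ | ⟨s, hs, hs', h1⟩
    · rw [h1] at h
      exact absurd (mem_singleton_iff.1 h) hαβ
    · rw [h1] at h h'
      rcases h with h | h
      · exact absurd h hαβ
      rcases h' with h' | h'
      · exact absurd h' hαβ'
      exact ih γ hγ h h'
    · rw [h1] at h h'
      rcases h with h | h
      · exact absurd h hαβ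
      rcases h' with h' | h'
      · exact absurd h' hαβ'
      obtain ⟨k, hk⟩ := mem_iUnion.1 h
      obtain ⟨l, hl⟩ := mem_iUnion.1 h'
      have hmono : ∀ i j, i ≤ j → Dd g e (s i) ⊆ Dd g e (s j) := by
        intro i j hij
        induction j, hij using Nat.le_induction with
        | base => exact subset_rfl
        | succ j _ ihj => exact ihj.trans (Dd_trans g e (hs' j))
      rcases le_total k l with hkl | hkl
      · exact ih _ (hs l) (hmono k l hkl hk) hl
      · exact ih _ (hs k) hk (hmono l k hkl hl)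

/-- the nodes -/
def Nd (_g : I → ℕ → Om × K) (_e : K → ((Om × K) × ℕ) ⊕ (I × (Om × K) × A)) : Type := Om × K

/-- the tree order -/
instance ndOrder : PartialOrder (Nd g e) where
  le β α := (β : Om × K) ∈ Dd g e (α : Om × K)
  le_refl α := self_mem g e α
  le_trans _ _ _ h h' := Dd_trans g e h' h
  le_antisymm α β h h' := by
    rcases Dd_lt g e h with h1 | h1
    · exact h1
    · rcases Dd_lt g e h' with h2 | h2
      · exact h2.symm
      · exact absurd h1 (lt_asymm h2)

theorem path_local (D : Om × K → Set (Om × K)) (ν : I) (τ : Om × K) (f f' : ℕ → ℕ) (k : ℕ)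
    (h : ∀ i < k, f i = f' i) : path g D ν τ f k = path g D ν τ f' k := by
  induction k with
  | zero => rfl
  | succ k ih =>
    rw [path, path, ih fun i hi => h i (by omega), h k (by omega)]

theorem path_mem_range (D : Om × K → Set (Om × K)) (ν : I) {τ : Om × K} (hτ : τ ∈ range (g ν))
    (f : ℕ → ℕ) (k : ℕ) : path g D ν τ f k ∈ range (g ν) := by
  induction k with
  | zero => exact hτ
  | succ k ih =>
    rw [path]
    split_ifs
    · exact ⟨_, rfl⟩
    · exact ih

variable (he : Function.Surjective e)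
include he

theorem nd_split (t : Nd g e) : ∃ d : ℕ → Nd g e, (∀ i, t ≤ d i) ∧ d 0 ≠ t ∧
    ∀ i j, i ≠ j → ∀ r, d i ≤ r → ∀ r', d j ≤ r' → ∀ s, s ≤ r → s ≤ r' → s ≤ t := by
  obtain ⟨t1, t2⟩ := t
  obtain ⟨ξ, hξ'⟩ := exists_gt_of_countable (countable_singleton t1)
  have hξ : t1 < ξ := hξ' t1 rfl
  have hex : ∀ n : ℕ, ∃ x, e x = Sum.inl ((t1, t2), n) := fun n => he _
  choose x hx using hex
  have hD : ∀ n, Dd g e (ξ, x n) = insert (ξ, x n) (Dd g e (t1, t2)) := fun n =>
    Dd_succ g e (hx n) hξ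
  have hinj : ∀ i j, i ≠ j → x i ≠ x j := by
    intro i j hij h
    have h1 := hx i
    rw [h, hx j] at h1
    simp only [Sum.inl.injEq, Prod.mk.injEq, true_and] at h1
    exact hij h1.symm
  refine ⟨fun n => (ξ, x n), fun n => ?_, ?_, ?_⟩
  · change (t1, t2) ∈ Dd g e (ξ, x n)
    rw [hD]
    exact mem_insert_of_mem _ (self_mem g e _)
  · intro h
    exact hξ.ne' (congrArg (fun z : Om × K => z.1) h)
  · intro i j hij r hr r' hr' s hs hs'
    change (ξ, x i) ∈ Dd g e r at hr
    change (ξ, x j) ∈ Dd g e r' at hr'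
    change s ∈ Dd g e r at hs
    change s ∈ Dd g e r' at hs'
    change s ∈ Dd g e (t1, t2)
    have key : ∀ n (q : Om × K), (ξ, x n) ∈ Dd g e q → s ∈ Dd g e q →
        s ∈ Dd g e (t1, t2) ∨ (ξ, x n) ∈ Dd g e s := by
      intro n q h1 h2
      rcases Dd_chain g e h2 h1 with h3 | h3
      · rw [hD] at h3
        rcases h3 with h3 | h3
        · right
          rw [h3]
          exact self_mem g e _
        · exact Or.inl h3
      · exact Or.inr h3
    rcases key i r hr hs with h1 | h1
    · exact h1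
    rcases key j r' hr' hs' with h2 | h2
    · exact h2
    exfalso
    have aux : ∀ n m, n ≠ m → (ξ, x n) ∉ Dd g e (ξ, x m) := by
      intro n m hnm h
      rw [hD] at h
      rcases h with h | h
      · exact hinj n m hnm (congrArg Prod.snd h)
      · rcases Dd_lt g e h with h' | h'
        · exact hξ.ne' (congrArg Prod.fst h')
        · exact absurd hξ (lt_asymm h')
    rcases Dd_chain g e h1 h2 with h3 | h3
    · exact aux i j hij h3
    · exact aux j i hij.symm h3

variable (hg : ∀ (w : Om × K → ℕ → Om × K) (τ : Om × K), ∃ ν,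
    τ ∈ range (g ν) ∧ ∀ β ∈ range (g ν), ∀ n, w β n ∈ range (g ν))
include hg

/-- bounded monotone functions are constant on some cone -/
theorem nd_const (hA : ¬ IsMeagre A) [Nonempty K] (μ : Nd g e → ℝ)
    (hμ : Monotone μ) (hC : ∃ C, ∀ t, μ t ≤ C) : ∃ t, ∀ u, t ≤ u → μ u = μ t := by
  obtain ⟨C, hC⟩ := hC
  have : Nonempty Om := mk_ne_zero_iff.1 (by rw [mk_Om]; exact (aleph_pos 1).ne')
  let τ : Om × K := (Classical.arbitrary Om, Classical.arbitrary K)
  let h : Nd g e → ℝ := fun t => sSup (μ '' Ici t)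
  have hbdd : ∀ t, BddAbove (μ '' Ici t) := fun t => ⟨C, by
    rintro _ ⟨u, _, rfl⟩
    exact hC u⟩
  have hle : ∀ t u, t ≤ u → μ u ≤ h t := fun t u htu => le_csSup (hbdd t) ⟨u, htu, rfl⟩
  have hanti : ∀ t u, t ≤ u → h u ≤ h t := fun t u htu =>
    csSup_le_csSup (hbdd t) ⟨_, u, self_mem_Ici, rfl⟩ (image_mono (Ici_subset_Ici.2 htu))
  -- the dense sets
  let E : ℕ → Set (Om × K) := fun n =>
    {t : Om × K | h (t : Nd g e) - μ (t : Nd g e) < 1 / ((n : ℝ) + 1)}
  have hw : ∀ (β : Om × K) (n : ℕ), ∃ q : Om × K, β ∈ Dd g e q ∧ q ∈ E n := by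
    intro β n
    obtain ⟨_, ⟨u, hu, rfl⟩, hlt⟩ := exists_lt_of_lt_csSup
      (⟨_, (β : Nd g e), self_mem_Ici, rfl⟩ : (μ '' Ici (β : Nd g e)).Nonempty)
      (show h (β : Nd g e) - 1 / ((n : ℝ) + 1) < h (β : Nd g e) from by
        have : 0 < 1 / ((n : ℝ) + 1) := by positivity
        linarith)
    refine ⟨u, hu, ?_⟩
    have h1 := hanti (β : Nd g e) u hu
    change h u - μ u < 1 / ((n : ℝ) + 1)
    linarith
  choose w hw1 hw2 using hw
  obtain ⟨ν, hτν, hν⟩ := hg w τ
  let G : ℕ → Set (ℕ → ℕ) := fun n => {f | ∃ k, path g (Dd g e) ν τ f k ∈ E n}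
  have hopen : ∀ n, IsOpen (G n) := by
    intro n
    rw [isOpen_iff_forall_mem_open]
    rintro f ⟨k, hk⟩
    refine ⟨PiNat.cylinder f k, ?_, PiNat.isOpen_cylinder _ f k, PiNat.self_mem_cylinder f k⟩
    intro f' hf'
    refine ⟨k, ?_⟩
    rw [path_local g (Dd g e) ν τ f' f k (fun i hi => PiNat.mem_cylinder_iff.1 hf' i hi)]
    exact hk
  have hdense : ∀ n, Dense (G n) := by
    intro n
    rw [(PiNat.isTopologicalBasis_cylinders (fun _ => ℕ)).dense_iff]
    rintro _ ⟨f, k, rfl⟩ -
    set s := path g (Dd g e) ν τ f k with hs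
    have hsr : s ∈ range (g ν) := path_mem_range g _ ν hτν f k
    obtain ⟨m, hm⟩ : w s n ∈ range (g ν) := hν s hsr n
    refine ⟨Function.update f k m, ?_, k + 1, ?_⟩
    · rw [PiNat.mem_cylinder_iff]
      intro i hi
      rw [Function.update_of_ne (by omega)]
    · have h1 : path g (Dd g e) ν τ (Function.update f k m) k = s :=
        path_local g (Dd g e) ν τ _ f k fun i hi => by rw [Function.update_of_ne (by omega)]
      rw [path, h1, Function.update_self, hm, if_pos (hw1 s n)]
      exact hw2 s n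
  have hres : (⋂ n, G n) ∈ residual (ℕ → ℕ) :=
    countable_iInter_mem.2 fun n => residual_of_dense_open (hopen n) (hdense n)
  obtain ⟨f, hfA, hfG⟩ : (A ∩ ⋂ n, G n).Nonempty := by
    by_contra hemp
    rw [not_nonempty_iff_eq_empty, ← disjoint_iff_inter_eq_empty] at hemp
    apply hA
    have h1 : IsMeagre (⋂ n, G n)ᶜ := by
      unfold IsMeagre
      rwa [compl_compl]
    exact h1.mono hemp.subset_compl_right
  rw [mem_iInter] at hfG
  obtain ⟨i, hi⟩ := he (Sum.inr (ν, τ, ⟨f, hfA⟩))
  obtain ⟨ξ, hξ⟩ := exists_gt_of_countable (S := range fun k => (g ν k).1) (countable_range _)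
  have hξ' : ∀ k, (g ν k).1 < ξ := fun k => hξ _ ⟨k, rfl⟩
  have hτξ : τ.1 < ξ := by
    obtain ⟨k, hk⟩ := hτν
    rw [← hk]
    exact hξ' k
  let α : Om × K := (ξ, i)
  have hDα := Dd_lim g e (α := α) hi hξ' hτξ
  have hmem : ∀ k, path g (Dd g e) ν τ f k ∈ Dd g e α := by
    intro k
    rw [hDα]
    exact mem_insert_of_mem _ (mem_iUnion.2 ⟨k, self_mem g e _⟩)
  refine ⟨(α : Nd g e), fun u hu => le_antisymm ?_ (hμ hu)⟩
  apply le_of_forall_pos_le_add
  intro ε hε
  obtain ⟨n, hn⟩ := exists_nat_one_div_lt hε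
  obtain ⟨k, hk⟩ := hfG n
  let q : Nd g e := path g (Dd g e) ν τ f k
  let a : Nd g e := α
  have h0 : q ≤ a := hmem k
  have h1 : μ u ≤ h q := hle q u (le_trans h0 hu)
  have h2 : h q - μ q < 1 / ((n : ℝ) + 1) := hk
  have h3 : μ q ≤ μ a := hμ h0
  change μ u ≤ μ a + ε
  linarith

end Pool.Agent.RR59.Big
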