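import Pool.Agent.RR59.Analysis

/-!
# The density of the space of a tree
-/

open Set Cardinal

namespace Pool.Agent.RR59

/-- The density of the space of a tree with `κ` elements is `κ`. -/
theorem hasDensity (T : Type) [PartialOrder T] {κ : Cardinal.{0}} (hκ : ℵ₀ ≤ κ) (hT : #T = κ) :
    HasDensity (span T) κ := by
  have low : ∀ D : Set (span T), Dense D → κ ≤ #D := by
    intro D hD
    have hex : ∀ t : T, ∃ d : D, ‖el T t - d‖ < 1 / 2 := by
      intro t
      obtain ⟨d, hd, hdD⟩ := hD.exists_dist_lt (el T t) (by norm_num : (0 : ℝ) < 1 / 2)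
      exact ⟨⟨d, hd⟩, by rwa [← dist_eq_norm]⟩
    choose d hd using hex
    rw [← hT]
    apply mk_le_of_injective (f := d)
    intro t u h
    by_contra hne
    have h1 := one_le_norm_el_sub hne
    have h2 := hd t
    have h3 := hd u
    rw [← h, norm_sub_rev] at h3
    have h4 : ‖el T t - el T u‖ ≤ ‖el T t - (d t : span T)‖ + ‖(d t : span T) - el T u‖ := by
      have := norm_add_le (el T t - (d t : span T)) ((d t : span T) - el T u)
      rwa [sub_add_sub_cancel] at this
    linarith
  refine ⟨?_, low⟩
  -- rational combinations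
  let φ : (T →₀ ℚ) → lp (fun _ : T => ℝ) ⊤ := fun v => v.sum fun t q => (q : ℝ) • ind T t
  have hφadd : ∀ v w, φ (v + w) = φ v + φ w := by
    intro v w
    apply Finsupp.sum_add_index'
    · intro t
      simp
    · intro t q q'
      rw [Rat.cast_add, add_smul]
  have hφsmul : ∀ (q : ℚ) v, φ (q • v) = (q : ℝ) • φ v := by
    intro q v
    simp only [φ]
    rw [Finsupp.sum_smul_index (by intro t; simp), Finsupp.smul_sum]
    congr 1
    funext t r
    rw [smul_smul, Rat.cast_mul]
  let K : Submodule ℝ (lp (fun _ : T => ℝ) ⊤) :=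
    { carrier := closure (range φ)
      zero_mem' := subset_closure ⟨0, by simp [φ]⟩
      add_mem' := by
        intro a b ha hb
        refine map_mem_closure₂ (f := fun x y => x + y) continuous_add ha hb ?_
        rintro _ ⟨v, rfl⟩ _ ⟨w, rfl⟩
        exact ⟨v + w, hφadd v w⟩
      smul_mem' := by
        intro r x hx
        have hr : r ∈ closure (range ((↑) : ℚ → ℝ)) := by
          rw [Rat.denseRange_cast.closure_range]
          trivial
        refine map_mem_closure₂ (f := fun (r : ℝ) (y : lp (fun _ : T => ℝ) ⊤) => r • y)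
          continuous_smul hr hx ?_
        rintro _ ⟨q, rfl⟩ _ ⟨w, rfl⟩
        exact ⟨q • w, hφsmul q w⟩ }
  have hK : span T ≤ K := by
    apply Submodule.topologicalClosure_minimal
    · rw [Submodule.span_le]
      rintro _ ⟨t, rfl⟩
      exact subset_closure ⟨Finsupp.single t 1, by simp [φ]⟩
    · exact isClosed_closure
  have hφmem : ∀ v, φ v ∈ span T := by
    intro v
    exact Submodule.sum_mem _ fun t _ => Submodule.smul_mem _ _ (ind_mem T t)
  let ψ : (T →₀ ℚ) → span T := fun v => ⟨φ v, hφmem v⟩
  have hdense : Dense (range ψ) := by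
    intro x
    rw [Topology.IsInducing.subtypeVal.closure_eq_preimage_closure_image, mem_preimage,
      ← range_comp]
    exact hK x.2
  refine ⟨range ψ, hdense, le_antisymm ?_ (low _ hdense)⟩
  refine mk_range_le.trans ?_
  have : Infinite T := by
    rw [infinite_iff, hT]
    exact hκ
  rw [mk_finsupp_lift_of_infinite]
  simp only [lift_id]
  rw [hT, mk_denumerable]
  exact max_le le_rfl hκ

end Pool.Agent.RR59
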