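import Pool.Agent.RR59.Tree

/-!
# A distributive forcing notion of size `ℵ₁` from a nonmeagre set of size `ℵ₁`
-/

open Set Cardinal

namespace Pool.Agent.RR59

/-- closure points in `ω₁` -/
theorem exists_closed (w : Om → ℕ → Om) (τ : Om) : ∃ δ, τ < δ ∧ ∀ β < δ, ∀ n, w β n < δ := by
  have hex : ∀ b : Om, ∃ b', b < b' ∧ ∀ β ≤ b, ∀ n, w β n < b' := by
    intro b
    obtain ⟨b', hb'⟩ := exists_gt_of_countable
      (S := insert b (⋃ β ∈ Iic b, range (w β)))
      (Countable.insert _ ((countable_Iic b).biUnion fun β _ => countable_range _))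
    exact ⟨b', hb' b (mem_insert _ _), fun β hβ n =>
      hb' _ (mem_insert_of_mem _ (mem_biUnion hβ ⟨n, rfl⟩))⟩
  choose nx hnx1 hnx2 using hex
  let b : ℕ → Om := fun k => nx^[k + 1] τ
  have hb : ∀ k, b (k + 1) = nx (b k) := fun k => Function.iterate_succ_apply' nx (k + 1) τ
  obtain ⟨c, hc⟩ := exists_gt_of_countable (countable_range b)
  have hne : {x | ∀ k, b k < x}.Nonempty := ⟨c, fun k => hc _ ⟨k, rfl⟩⟩
  set δ := wellFounded_lt.min {x | ∀ k, b k < x} hne with hδ
  have h1 : ∀ k, b k < δ := wellFounded_lt.min_mem {x | ∀ k, b k < x} hne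
  refine ⟨δ, (hnx1 τ).trans (h1 0), fun β hβ n => ?_⟩
  have h2 : ¬ ∀ k, b k < β := fun h => wellFounded_lt.not_lt_min {x | ∀ k, b k < x} h hβ
  push Not at h2
  obtain ⟨k, hk⟩ := h2
  have h3 := hnx2 (b k) β hk n
  rw [← hb k] at h3
  exact h3.trans (h1 (k + 1))

section

variable {A : Set (ℕ → ℕ)} (g : Om → ℕ → Om) (e : Om → (Om × ℕ) ⊕ (Om × Om × A))

open Classical in
/-- the path through the nodes below `δ` which starts at `τ` and is guided by `f` -/
noncomputable def path (D : Om → Set Om) (δ τ : Om) (f : ℕ → ℕ) : ℕ → Om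
  | 0 => τ
  | k + 1 => if path D δ τ f k ∈ D (g δ (f k)) then g δ (f k) else path D δ τ f k

open Classical in
/-- the set of predecessors of the node `α` -/
noncomputable def node (α : Om) (D : Om → Set Om) : Set Om :=
  match e α with
  | Sum.inl (β, _) => if β < α then insert α (D β) else {α}
  | Sum.inr (δ, τ, f) => if δ ≤ α ∧ τ < δ then insert α (⋃ k, D (path g D δ τ f k)) else {α}

open Classical in
/-- the sets of predecessors -/
noncomputable def Dd : Om → Set Om :=
  WellFounded.fix (wellFounded_lt (α := Om)) fun α IH =>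
    node g e α (fun β => if h : β < α then IH β h else ∅)

open Classical in
theorem Dd_eq (α : Om) : Dd g e α = node g e α (fun β => if β < α then Dd g e β else ∅) := by
  unfold Dd
  rw [WellFounded.fix_eq]
  congr 1

variable (hg : ∀ d, (Iio d).Nonempty → range (g d) = Iio d)
include hg

theorem g_lt {δ τ : Om} (hτ : τ < δ) (n : ℕ) : g δ n < δ := by
  have : g δ n ∈ Iio δ := by
    rw [← hg δ ⟨τ, hτ⟩]
    exact ⟨n, rfl⟩
  exact this

theorem path_lt (D : Om → Set Om) {δ τ : Om} (hτ : τ < δ) (f : ℕ → ℕ) (k : ℕ) :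
    path g D δ τ f k < δ := by
  induction k with
  | zero => exact hτ
  | succ k ih =>
    rw [path]
    split_ifs
    · exact g_lt g hg hτ _
    · exact ih

theorem path_congr (D D' : Om → Set Om) {δ τ : Om} (hτ : τ < δ) (f : ℕ → ℕ)
    (h : ∀ β < δ, D β = D' β) (k : ℕ) : path g D δ τ f k = path g D' δ τ f k := by
  induction k with
  | zero => rfl
  | succ k ih =>
    rw [path, path, ih, h _ (g_lt g hg hτ _)]

theorem Dd_lim {α δ τ : Om} {f : A} (he : e α = Sum.inr (δ, τ, f)) (hδ : δ ≤ α) (hτ : τ < δ) :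
    Dd g e α = insert α (⋃ k, Dd g e (path g (Dd g e) δ τ f k)) := by
  classical
  rw [Dd_eq, node, he]
  simp only
  rw [if_pos ⟨hδ, hτ⟩]
  congr 1
  apply iUnion_congr
  intro k
  rw [if_pos ((path_lt g hg _ hτ f k).trans_le hδ)]
  congr 1
  apply path_congr g hg _ _ hτ
  intro β hβ
  rw [if_pos (hβ.trans_le hδ)]

omit hg in
theorem Dd_succ {α β : Om} {n : ℕ} (he : e α = Sum.inl (β, n)) (hβ : β < α) :
    Dd g e α = insert α (Dd g e β) := by
  rw [Dd_eq, node, he]
  simp only
  rw [if_pos hβ, if_pos hβ]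

omit hg in
theorem self_mem (α : Om) : α ∈ Dd g e α := by
  rw [Dd_eq, node]
  rcases e α with ⟨β, n⟩ | ⟨δ, τ, f⟩
  · simp only
    split_ifs <;> simp
  · simp only
    split_ifs <;> simp

theorem Dd_cases (α : Om) : Dd g e α = {α} ∨ (∃ β < α, Dd g e α = insert α (Dd g e β)) ∨
    ∃ s : ℕ → Om, (∀ k, s k < α) ∧ (∀ k, s k ∈ Dd g e (s (k + 1))) ∧
      Dd g e α = insert α (⋃ k, Dd g e (s k)) := by
  rcases hc : e α with ⟨β, n⟩ | ⟨δ, τ, f⟩
  · by_cases hβ : β < α
    · exact Or.inr (Or.inl ⟨β, hβ, Dd_succ g e hc hβ⟩)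
    · left
      rw [Dd_eq, node, hc]
      simp only
      rw [if_neg hβ]
  · by_cases h : δ ≤ α ∧ τ < δ
    · refine Or.inr (Or.inr ⟨path g (Dd g e) δ τ f, fun k =>
        (path_lt g hg _ h.2 f k).trans_le h.1, fun k => ?_, Dd_lim g e hg hc h.1 h.2⟩)
      rw [path]
      split_ifs with h1
      · exact h1
      · exact self_mem g e _
    · left
      rw [Dd_eq, node, hc]
      simp only
      rw [if_neg h]

theorem Dd_le {α β : Om} (h : β ∈ Dd g e α) : β ≤ α := by
  induction α using WellFoundedLT.induction generalizing β with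
  | ind α ih =>
    rcases Dd_cases g e hg α with h1 | ⟨γ, hγ, h1⟩ | ⟨s, hs, -, h1⟩
    · rw [h1] at h
      exact (mem_singleton_iff.1 h).le
    · rw [h1] at h
      rcases h with h | h
      · exact h.le
      · exact (ih γ hγ h).trans hγ.le
    · rw [h1] at h
      rcases h with h | h
      · exact h.le
      · obtain ⟨k, hk⟩ := mem_iUnion.1 h
        exact (ih _ (hs k) hk).trans (hs k).le

theorem Dd_trans {α β : Om} (h : β ∈ Dd g e α) : Dd g e β ⊆ Dd g e α := by
  induction α using WellFoundedLT.induction generalizing β with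
  | ind α ih =>
    by_cases hαβ : β = α
    · rw [hαβ]
    rcases Dd_cases g e hg α with h1 | ⟨γ, hγ, h1⟩ | ⟨s, hs, -, h1⟩
    · rw [h1] at h
      exact absurd (mem_singleton_iff.1 h) hαβ
    · rw [h1] at h ⊢
      rcases h with h | h
      · exact absurd h hαβ
      · exact (ih γ hγ h).trans (subset_insert _ _)
    · rw [h1] at h ⊢
      rcases h with h | h
      · exact absurd h hαβ
      · obtain ⟨k, hk⟩ := mem_iUnion.1 h
        exact ((ih _ (hs k) hk).trans (subset_iUnion (fun k => Dd g e (s k)) k)).trans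
          (subset_insert _ _)

theorem Dd_chain {α β β' : Om} (h : β ∈ Dd g e α) (h' : β' ∈ Dd g e α) :
    β ∈ Dd g e β' ∨ β' ∈ Dd g e β := by
  induction α using WellFoundedLT.induction generalizing β β' with
  | ind α ih =>
    by_cases hαβ : β = α
    · rw [hαβ]
      exact Or.inr h'
    by_cases hαβ' : β' = α
    · rw [hαβ']
      exact Or.inl h
    rcases Dd_cases g e hg α with h1 | ⟨γ, hγ, h1⟩ | ⟨s, hs, hs', h1⟩
    · rw [h1] at h
      exact absurd (mem_singleton_iff.1 h) hαβ
    · rw [h1] at h h'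
      rcases h with h | h
      · exact absurd h hαβ
      rcases h' with h' | h'
      · exact absurd h' hαβ'
      exact ih γ hγ h h'
    · rw [h1] at h h'
      rcases h with h | h
      · exact absurd h hαβ
      rcases h' with h' | h'
      · exact absurd h' hαβ'
      obtain ⟨k, hk⟩ := mem_iUnion.1 h
      obtain ⟨l, hl⟩ := mem_iUnion.1 h'
      have hmono : ∀ i j, i ≤ j → Dd g e (s i) ⊆ Dd g e (s j) := by
        intro i j hij
        induction j, hij using Nat.le_induction with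
        | base => exact subset_rfl
        | succ j _ ihj => exact ihj.trans (Dd_trans g e hg (hs' j))
      rcases le_total k l with hkl | hkl
      · exact ih _ (hs l) (hmono k l hkl hk) hl
      · exact ih _ (hs k) hk (hmono l k hkl hl)

/-- the nodes -/
def Nd (_g : Om → ℕ → Om) (_e : Om → (Om × ℕ) ⊕ (Om × Om × A)) : Type := Om

/-- the tree order -/
@[reducible] def ndOrder : PartialOrder (Nd g e) where
  le β α := (β : Om) ∈ Dd g e (α : Om)
  le_refl α := self_mem g e α
  le_trans _ _ _ h h' := Dd_trans g e hg h' h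
  le_antisymm _ _ h h' := le_antisymm (α := Om) (Dd_le g e hg h) (Dd_le g e hg h')

omit hg in
theorem path_local (D : Om → Set Om) (δ τ : Om) (f f' : ℕ → ℕ) (k : ℕ)
    (h : ∀ i < k, f i = f' i) : path g D δ τ f k = path g D δ τ f' k := by
  induction k with
  | zero => rfl
  | succ k ih =>
    rw [path, path, ih fun i hi => h i (by omega), h k (by omega)]

omit hg in
theorem path_mono (δ τ : Om) (f : ℕ → ℕ) (k : ℕ) :
    path g (Dd g e) δ τ f k ∈ Dd g e (path g (Dd g e) δ τ f (k + 1)) := by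
  rw [path]
  split_ifs with h1
  · exact h1
  · exact self_mem g e _

variable (he : ∀ c b, ∃ a, b < a ∧ e a = c)
include he

theorem nd_atomless : @Atomless (Nd g e) (ndOrder g e hg) := by
  let _ := ndOrder g e hg
  intro β
  obtain ⟨α₀, h0, e0⟩ := he (Sum.inl (β, 0)) β
  obtain ⟨α₁, h1, e1⟩ := he (Sum.inl (β, 1)) β
  have hD0 := Dd_succ g e e0 h0
  have hD1 := Dd_succ g e e1 h1
  have hne : α₀ ≠ α₁ := by
    rintro rfl
    rw [e0] at e1
    simp at e1
  refine ⟨α₀, α₁, ?_, ?_, ?_⟩
  · change β ∈ Dd g e α₀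
    rw [hD0]
    exact mem_insert_of_mem _ (self_mem g e β)
  · change β ∈ Dd g e α₁
    rw [hD1]
    exact mem_insert_of_mem _ (self_mem g e β)
  · rintro ⟨γ, hγ0, hγ1⟩
    rcases Dd_chain g e hg hγ0 hγ1 with h | h
    · rw [hD1] at h
      rcases h with h | h
      · exact hne h
      · exact absurd (Dd_le g e hg h) (not_le.2 h0)
    · rw [hD0] at h
      rcases h with h | h
      · exact hne h.symm
      · exact absurd (Dd_le g e hg h) (not_le.2 h1)

theorem nd_distributive (hA : ¬ IsMeagre A) : @OmegaDistributive (Nd g e) (ndOrder g e hg) := by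
  let _ := ndOrder g e hg
  intro E hE τ
  have hw : ∀ (β : Om) (n : ℕ), ∃ q : Om, β ∈ Dd g e q ∧ q ∈ E n := fun β n => (hE n).2 β
  choose w hw1 hw2 using hw
  obtain ⟨δ, hτδ, hδ⟩ := exists_closed w τ
  let G : ℕ → Set (ℕ → ℕ) := fun n => {f | ∃ k, path g (Dd g e) δ τ f k ∈ E n}
  have hopen : ∀ n, IsOpen (G n) := by
    intro n
    rw [isOpen_iff_forall_mem_open]
    rintro f ⟨k, hk⟩
    refine ⟨PiNat.cylinder f k, ?_, PiNat.isOpen_cylinder _ f k, PiNat.self_mem_cylinder f k⟩
    intro f' hf'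
    refine ⟨k, ?_⟩
    rw [path_local g (Dd g e) δ τ f' f k (fun i hi => PiNat.mem_cylinder_iff.1 hf' i hi)]
    exact hk
  have hdense : ∀ n, Dense (G n) := by
    intro n
    rw [(PiNat.isTopologicalBasis_cylinders (fun _ => ℕ)).dense_iff]
    rintro _ ⟨f, k, rfl⟩ -
    set s := path g (Dd g e) δ τ f k with hs
    have hsδ : s < δ := path_lt g hg _ hτδ f k
    have hwδ := hδ s hsδ n
    obtain ⟨m, hm⟩ : w s n ∈ range (g δ) := by
      rw [hg δ ⟨τ, hτδ⟩]
      exact hwδ
    refine ⟨Function.update f k m, ?_, k + 1, ?_⟩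
    · rw [PiNat.mem_cylinder_iff]
      intro i hi
      rw [Function.update_of_ne (by omega)]
    · have h1 : path g (Dd g e) δ τ (Function.update f k m) k = s :=
        path_local g (Dd g e) δ τ _ f k fun i hi => by rw [Function.update_of_ne (by omega)]
      rw [path, h1, Function.update_self, hm, if_pos (hw1 s n)]
      exact hw2 s n
  have hres : (⋂ n, G n) ∈ residual (ℕ → ℕ) :=
    countable_iInter_mem.2 fun n => residual_of_dense_open (hopen n) (hdense n)
  obtain ⟨f, hfA, hfG⟩ : (A ∩ ⋂ n, G n).Nonempty := by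
    by_contra hemp
    rw [not_nonempty_iff_eq_empty, ← disjoint_iff_inter_eq_empty] at hemp
    apply hA
    have h1 : IsMeagre (⋂ n, G n)ᶜ := by
      unfold IsMeagre
      rwa [compl_compl]
    exact h1.mono hemp.subset_compl_right
  rw [mem_iInter] at hfG
  obtain ⟨α, hα, heα⟩ := he (Sum.inr (δ, τ, ⟨f, hfA⟩)) δ
  have hDα := Dd_lim g e hg heα hα.le hτδ
  have hmem : ∀ k, path g (Dd g e) δ τ f k ∈ Dd g e α := by
    intro k
    rw [hDα]
    exact mem_insert_of_mem _ (mem_iUnion.2 ⟨k, self_mem g e _⟩)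
  refine ⟨α, hmem 0, fun n => ?_⟩
  obtain ⟨k, hk⟩ := hfG n
  exact (hE n).1 _ _ hk (hmem k)

end

/-- A nonmeagre subset of the Baire space of cardinality `ℵ₁` gives an atomless `ω`-distributive
forcing notion of cardinality `ℵ₁`. -/
theorem exists_distributive (A : Set (ℕ → ℕ)) (hA : #A = ℵ₁) (hm : ¬ IsMeagre A) :
    ∃ (P : Type) (_ : PartialOrder P), #P = ℵ₁ ∧ Atomless P ∧ OmegaDistributive P := by
  obtain ⟨g, hg⟩ := exists_enum
  have h1 : #((Om × ℕ) ⊕ (Om × Om × A)) ≤ ℵ₁ := by
    have e1 : #(Om × ℕ) = ℵ₁ := by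
      rw [mk_prod, lift_id, lift_id, mk_Om, mk_nat]
      exact mul_eq_left (aleph0_le_aleph 1) (aleph0_le_aleph 1) aleph0_ne_zero
    have e2 : #(Om × Om × A) = ℵ₁ := by
      rw [mk_prod, mk_prod]
      simp only [lift_id]
      rw [mk_Om, hA, mul_eq_self (aleph0_le_aleph 1), mul_eq_self (aleph0_le_aleph 1)]
    rw [mk_sum, lift_id, lift_id, e1, e2]
    exact (add_eq_self (aleph0_le_aleph 1)).le
  have : Nonempty Om := mk_ne_zero_iff.1 (by rw [mk_Om]; exact (aleph_pos 1).ne')
  obtain ⟨e, he⟩ := exists_code ((Om × ℕ) ⊕ (Om × Om × A)) h1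
  exact ⟨Nd g e, ndOrder g e hg, mk_Om, nd_atomless g e hg he, nd_distributive g e hg he hm⟩

end Pool.Agent.RR59
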