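import Pool.Agent.RR59.Density
import Pool.Agent.RR59.Meagre

/-!
# Banach spaces of density `ℵ₁` without rotund renormings from distributive forcing notions

`Incomp`, `Atomless`, `DenseOpen`, `OmegaDistributive` are in `Pool/Agent/RR59/Tree.lean`;
`EquivNorm`, `Rotund`, `HasDensity` are in `Pool/Agent/RR59/Analysis.lean`.
-/

open Set Cardinal

namespace Pool.Agent.RR59.Distributive

open Pool.Agent.RR59

/-- **Theorem.**  (1) If there is an atomless `ω`-distributive forcing notion of cardinality `ℵ₁`,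
then there is a Banach space of density `ℵ₁` without rotund renorming.  (2) Such a forcing notion
exists if there is a nonmeagre subset of the Baire space of cardinality `ℵ₁`. -/
theorem result :
    ((∃ (P : Type) (_ : PartialOrder P), #P = ℵ₁ ∧ Atomless P ∧ OmegaDistributive P) →
      ∃ (X : Type) (_ : NormedAddCommGroup X) (_ : NormedSpace ℝ X), CompleteSpace X ∧
        HasDensity X ℵ₁ ∧ ∀ N : X → ℝ, EquivNorm X N → ¬ Rotund N) ∧
    ((∃ A : Set (ℕ → ℕ), #A = ℵ₁ ∧ ¬ IsMeagre A) →
      ∃ (P : Type) (_ : PartialOrder P), #P = ℵ₁ ∧ Atomless P ∧ OmegaDistributive P) := by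
  refine ⟨?_, fun ⟨A, hA, hm⟩ => exists_distributive A hA hm⟩
  rintro ⟨P, _, hP, hat, hdist⟩
  have hne : Nonempty P := mk_ne_zero_iff.1 (by rw [hP]; exact (aleph_pos 1).ne')
  obtain ⟨p⟩ : Nonempty (Om ≃ P) := Cardinal.eq.1 (by rw [mk_Om, hP])
  obtain ⟨c, hc1, hc2⟩ := exists_infinite_anti hat
  refine ⟨span (BTree (p : Om → P) c), inferInstance, inferInstance, inferInstance,
    hasDensity _ (aleph0_le_aleph 1) (mk_btree _ _ hdist hP.le), ?_⟩
  exact space_not_rotund (btree_const _ _ hdist p.surjective) (btree_split _ _ hdist hc1 hc2)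

end Pool.Agent.RR59.Distributive
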