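import Pool.Agent.RR59.Tree

/-!
# Small stationary families of countable sets
-/

open Set Cardinal

namespace Pool.Agent.RR59

/-- There are at most `#K` countable subsets of `K` (the ranges of the `g ν`) such that for every
countable family of functions `K → K` and every point one of the sets contains the point
and is closed under the functions. -/
def Stat (K : Type) : Prop :=
  ∃ (I : Type) (g : I → ℕ → K), #I ≤ #K ∧ ∀ (w : K → ℕ → K) (τ : K), ∃ ν,
    τ ∈ range (g ν) ∧ ∀ β ∈ range (g ν), ∀ n, w β n ∈ range (g ν)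

theorem stat_nat : Stat ℕ := by
  refine ⟨Unit, fun _ n => n, ?_, fun w τ => ⟨(), ⟨τ, rfl⟩, fun β _ n => ⟨_, rfl⟩⟩⟩
  simp only [mk_unit, mk_nat]
  exact one_le_aleph0

theorem Stat.congr {K L : Type} (e : K ≃ L) (h : Stat K) : Stat L := by
  obtain ⟨I, g, hI, hg⟩ := h
  refine ⟨I, fun ν n => e (g ν n), by rwa [← mk_congr e], fun w τ => ?_⟩
  obtain ⟨ν, hν1, hν2⟩ := hg (fun β n => e.symm (w (e β) n)) (e.symm τ)
  refine ⟨ν, ?_, ?_⟩
  · obtain ⟨k, hk⟩ := hν1
    exact ⟨k, by simp [hk]⟩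
  · rintro _ ⟨k, rfl⟩ n
    obtain ⟨l, hl⟩ := hν2 (g ν k) ⟨k, rfl⟩ n
    exact ⟨l, by simp [hl]⟩

/-- all countable sequences -/
theorem stat_of_power {K : Type} (hK : #K ^ ℵ₀ = #K) : Stat K := by
  refine ⟨ℕ → K, fun ν => ν, ?_, fun w τ => ?_⟩
  · rw [mk_arrow, lift_id, lift_id, mk_nat, hK]
  · let h : List ℕ → K := fun l => l.foldr (fun n β => w β n) τ
    obtain ⟨d, hd⟩ := exists_surjective_nat (List ℕ)
    refine ⟨fun n => h (d n), ?_, ?_⟩
    · obtain ⟨n, hn⟩ := hd []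
      exact ⟨n, by simp [hn, h]⟩
    · rintro _ ⟨k, rfl⟩ n
      obtain ⟨m, hm⟩ := hd (n :: d k)
      exact ⟨m, by simp [hm, h]⟩

section succ

variable (c : Cardinal.{0})

/-- a well ordered set whose order type is the initial ordinal of `succ c` -/
abbrev Sc : Type := (Order.succ c).ord.ToType

theorem mk_Sc : #(Sc c) = Order.succ c := mk_ord_toType _

theorem mk_Iio_le (a : Sc c) : #(Iio a) ≤ c := by
  have := mk_Iio_lt a (by simp)
  rw [mk_Sc] at this
  exact Order.lt_succ_iff.1 this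

variable {c} (hc : ℵ₀ ≤ c)
include hc

theorem mk_Iic_le (a : Sc c) : #(Iic a) ≤ c := by
  rw [← Iio_insert]
  refine (mk_insert_le).trans ?_
  exact (add_le_add (mk_Iio_le c a) (one_le_aleph0.trans hc)).trans (add_eq_self hc).le

/-- small sets are bounded -/
theorem exists_gt_of_small {S : Set (Sc c)} (hS : #S ≤ c) : ∃ b, ∀ a ∈ S, a < b := by
  by_contra hcon
  push Not at hcon
  have h1 : (univ : Set (Sc c)) ⊆ ⋃ a ∈ S, Iic a := by
    intro b _
    obtain ⟨a, ha, hab⟩ := hcon b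
    exact mem_biUnion ha hab
  have h2 : #(univ : Set (Sc c)) ≤ c := by
    refine (mk_le_mk_of_subset h1).trans ?_
    rw [biUnion_eq_iUnion]
    refine (mk_iUnion_le _).trans ?_
    have h3 : (⨆ i : S, #(Iic (i : Sc c))) ≤ c := ciSup_le' fun i => mk_Iic_le hc _
    exact (mul_le_mul' hS h3).trans (mul_eq_self hc).le
  rw [mk_univ, mk_Sc] at h2
  exact absurd h2 (not_le.2 (Order.lt_succ c))

theorem exists_closed_small (w : Sc c → ℕ → Sc c) (τ : Sc c) :
    ∃ δ, τ < δ ∧ ∀ β < δ, ∀ n, w β n < δ := by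
  have hex : ∀ b : Sc c, ∃ b', b < b' ∧ ∀ β ≤ b, ∀ n, w β n < b' := by
    intro b
    have hcard : #(insert b (range fun x : Iic b × ℕ => w x.1 x.2) : Set (Sc c)) ≤ c := by
      refine mk_insert_le.trans ?_
      have h1 : #(range fun x : Iic b × ℕ => w x.1 x.2) ≤ c := by
        refine mk_range_le.trans ?_
        rw [mk_prod, lift_id, lift_id, mk_nat]
        exact (mul_le_mul' (mk_Iic_le hc b) hc).trans (mul_eq_self hc).le
      exact (add_le_add h1 (one_le_aleph0.trans hc)).trans (add_eq_self hc).le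
    obtain ⟨b', hb'⟩ := exists_gt_of_small hc hcard
    exact ⟨b', hb' b (mem_insert _ _), fun β hβ n =>
      hb' _ (mem_insert_of_mem _ ⟨(⟨β, hβ⟩, n), rfl⟩)⟩
  choose nx hnx1 hnx2 using hex
  let b : ℕ → Sc c := fun k => nx^[k + 1] τ
  have hb : ∀ k, b (k + 1) = nx (b k) := fun k => Function.iterate_succ_apply' nx (k + 1) τ
  obtain ⟨d, hd⟩ := exists_gt_of_small hc (S := range b) (by
    refine mk_range_le.trans ?_
    rw [mk_nat]
    exact hc)
  have hne : {x | ∀ k, b k < x}.Nonempty := ⟨d, fun k => hd _ ⟨k, rfl⟩⟩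
  have h1 : ∀ k, b k < wellFounded_lt.min {x | ∀ k, b k < x} hne :=
    wellFounded_lt.min_mem {x | ∀ k, b k < x} hne
  refine ⟨wellFounded_lt.min {x | ∀ k, b k < x} hne, (hnx1 τ).trans (h1 0), fun β hβ n => ?_⟩
  have h2 : ¬ ∀ k, b k < β := fun h => wellFounded_lt.not_lt_min {x | ∀ k, b k < x} h hβ
  push Not at h2
  obtain ⟨k, hk⟩ := h2
  have h3 := hnx2 (b k) β hk n
  rw [← hb k] at h3
  exact h3.trans (h1 (k + 1))

theorem stat_succ {K : Type} (hK : #K = c) (h : Stat K) : Stat (Sc c) := by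
  obtain ⟨I, g, hI, hg⟩ := h
  have hne : Nonempty K := mk_ne_zero_iff.1 (by
    rw [hK]
    exact (aleph0_pos.trans_le hc).ne')
  have hsur : ∀ δ : Sc c, ∃ π : K → Sc c, (Iio δ).Nonempty → range π = Iio δ := by
    intro δ
    by_cases hδ : (Iio δ).Nonempty
    · have h1 : #(Iio δ) ≤ #K := by
        rw [hK]
        exact mk_Iio_le c δ
      obtain ⟨j⟩ := h1
      have : Nonempty (Iio δ) := hδ.to_subtype
      refine ⟨fun x => (Function.invFun j x : Iio δ), fun _ => ?_⟩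
      apply Subset.antisymm
      · rintro _ ⟨x, rfl⟩
        exact (Function.invFun j x : Iio δ).2
      · intro y hy
        exact ⟨j ⟨y, hy⟩, by
          change ((Function.invFun j (j ⟨y, hy⟩) : Iio δ) : Sc c) = y
          rw [Function.leftInverse_invFun j.injective]⟩
    · exact ⟨fun _ => δ, fun h' => absurd h' hδ⟩
  choose π hπ using hsur
  refine ⟨Sc c × I, fun x n => π x.1 (g x.2 n), ?_, fun w τ => ?_⟩
  · rw [mk_prod, lift_id, lift_id]
    have h2 : #I ≤ #(Sc c) := by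
      rw [mk_Sc]
      exact hI.trans (hK.le.trans (Order.le_succ c))
    refine (mul_le_mul' le_rfl h2).trans (mul_eq_self ?_).le
    rw [mk_Sc]
    exact hc.trans (Order.le_succ c)
  · obtain ⟨δ, hτδ, hδ⟩ := exists_closed_small hc w τ
    have hr := hπ δ ⟨τ, hτδ⟩
    have hlt : ∀ x, π δ x < δ := fun x => by
      have : π δ x ∈ Iio δ := by
        rw [← hr]
        exact ⟨x, rfl⟩
      exact this
    have hex : ∀ y, y < δ → ∃ x, π δ x = y := fun y hy => by
      have : y ∈ range (π δ) := by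
        rw [hr]
        exact hy
      exact this
    have hw : ∀ (x : K) (n : ℕ), ∃ x', π δ x' = w (π δ x) n := fun x n =>
      hex _ (hδ _ (hlt x) n)
    choose w' hw' using hw
    obtain ⟨τ', hτ'⟩ := hex τ hτδ
    obtain ⟨ν, ⟨k, hk⟩, hν2⟩ := hg w' τ'
    refine ⟨(δ, ν), ⟨k, by simp only [hk, hτ']⟩, ?_⟩
    rintro _ ⟨l, rfl⟩ n
    obtain ⟨m, hm⟩ := hν2 (g ν l) ⟨l, rfl⟩ n
    refine ⟨m, ?_⟩
    simp only [hm, hw']

end succ

theorem stat_aleph (n : ℕ) (K : Type) (hK : #K = ℵ_ n) : Stat K := by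
  induction n generalizing K with
  | zero =>
    obtain ⟨e⟩ : Nonempty (ℕ ≃ K) := Cardinal.eq.1 (by rw [hK, mk_nat]; simp)
    exact stat_nat.congr e
  | succ n ih =>
    have h1 : #((ℵ_ n).ord.ToType) = ℵ_ n := mk_ord_toType _
    have h2 := stat_succ (aleph0_le_aleph _) h1 (ih _ h1)
    obtain ⟨e⟩ : Nonempty (Sc (ℵ_ n) ≃ K) := Cardinal.eq.1 (by
      rw [mk_Sc, hK, succ_aleph]
      congr 1)
    exact h2.congr e

end Pool.Agent.RR59
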