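import Mathlib

/-!
# Distributive forcing notions of size `ℵ₁`: the base tree
-/

open Set Cardinal

namespace Pool.Agent.RR59

/-- `q` and `r` have no common extension (`p ≤ q` means that `q` extends `p`). -/
def Incomp {P : Type} [PartialOrder P] (q r : P) : Prop := ¬ ∃ s, q ≤ s ∧ r ≤ s

/-- every element has two extensions without a common extension -/
def Atomless (P : Type) [PartialOrder P] : Prop :=
  ∀ p : P, ∃ q r, p ≤ q ∧ p ≤ r ∧ Incomp q r

/-- the dense open subsets of the forcing notion `P` -/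
def DenseOpen {P : Type} [PartialOrder P] (D : Set P) : Prop :=
  (∀ p q, p ∈ D → p ≤ q → q ∈ D) ∧ ∀ p, ∃ q, p ≤ q ∧ q ∈ D

/-- every countable intersection of dense open subsets is dense -/
def OmegaDistributive (P : Type) [PartialOrder P] : Prop :=
  ∀ D : ℕ → Set P, (∀ n, DenseOpen (D n)) → ∀ p, ∃ q, p ≤ q ∧ ∀ n, q ∈ D n

/-! ### the first uncountable ordinal -/

/-- a well ordered set of order type `ω₁` -/
abbrev Om : Type := (ℵ₁ : Cardinal.{0}).ord.ToType

theorem mk_Om : #Om = ℵ₁ := mk_ord_toType _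

theorem countable_Iio (a : Om) : (Iio a).Countable := by
  rw [← le_aleph0_iff_set_countable, ← lt_aleph_one_iff]
  have := mk_Iio_lt a (by simp)
  rwa [mk_Om] at this

theorem countable_Iic (a : Om) : (Iic a).Countable := by
  rw [← Iio_union_right]
  exact (countable_Iio a).union (countable_singleton a)

theorem not_countable_univ : ¬ (univ : Set Om).Countable := by
  rw [← le_aleph0_iff_set_countable, ← lt_aleph_one_iff, mk_univ, mk_Om]
  exact lt_irrefl _

/-- countable sets are bounded -/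
theorem exists_gt_of_countable {S : Set Om} (hS : S.Countable) : ∃ b, ∀ a ∈ S, a < b := by
  by_contra hcon
  push Not at hcon
  apply not_countable_univ
  have : (univ : Set Om) ⊆ ⋃ a ∈ S, Iic a := by
    intro b _
    obtain ⟨a, ha, hab⟩ := hcon b
    exact mem_biUnion ha hab
  exact (hS.biUnion fun a _ => countable_Iic a).mono this

/-- a coding function which takes every value cofinally often -/
theorem exists_code (C : Type) [Nonempty C] (hC : #C ≤ ℵ₁) :
    ∃ e : Om → C, ∀ c b, ∃ a, b < a ∧ e a = c := by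
  have h1 : #(C × Om) = #Om := by
    rw [mk_prod, lift_id, lift_id, mk_Om]
    exact mul_eq_right (aleph0_le_aleph 1) hC (mk_ne_zero C)
  obtain ⟨E⟩ := Cardinal.eq.1 h1
  refine ⟨fun a => (E.symm a).1, fun c b => ?_⟩
  by_contra hcon
  push Not at hcon
  apply not_countable_univ
  have h2 : (range fun x : Om => E (c, x)) ⊆ Iic b := by
    rintro _ ⟨x, rfl⟩
    by_contra hlt
    exact hcon (E (c, x)) (not_le.1 hlt) (by simp)
  have h3 := (countable_Iic b).mono h2
  have h4 : Function.Injective fun x : Om => E (c, x) := by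
    intro x y hxy
    have := E.injective hxy
    simpa using this
  have h5 : (univ : Set Om).Countable := by
    rw [← image_univ] at h3
    exact (countable_of_injective_of_countable_image (h4.injOn) h3)
  exact h5

/-- enumeration of the initial segments -/
theorem exists_enum : ∃ g : Om → ℕ → Om, ∀ d, (Iio d).Nonempty → range (g d) = Iio d := by
  have : ∀ d : Om, ∃ g : ℕ → Om, (Iio d).Nonempty → range g = Iio d := by
    intro d
    by_cases h : (Iio d).Nonempty
    · obtain ⟨g, hg⟩ := (countable_Iio d).exists_eq_range h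
      exact ⟨g, fun _ => hg.symm⟩
    · exact ⟨fun _ => d, fun h' => absurd h' h⟩
  choose g hg using this
  exact ⟨g, hg⟩

/-! ### antichains -/

section

variable {P : Type} [PartialOrder P]

theorem Incomp.symm {q r : P} (h : Incomp q r) : Incomp r q := fun ⟨s, h1, h2⟩ => h ⟨s, h2, h1⟩

theorem Incomp.mono {q r q' r' : P} (h : Incomp q r) (hq : q ≤ q') (hr : r ≤ r') :
    Incomp q' r' := fun ⟨s, h1, h2⟩ => h ⟨s, hq.trans h1, hr.trans h2⟩

/-- a maximal antichain in `U` -/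
theorem exists_anti (U : Set P) : ∃ S : Set P, S ⊆ U ∧ (∀ a ∈ S, ∀ b ∈ S, a ≠ b → Incomp a b) ∧
    ∀ x ∈ U, ∃ a ∈ S, ¬ Incomp a x := by
  obtain ⟨S, hS⟩ := zorn_subset {S : Set P | S ⊆ U ∧ ∀ a ∈ S, ∀ b ∈ S, a ≠ b → Incomp a b} (by
    intro c hc hchain
    refine ⟨⋃₀ c, ⟨sUnion_subset fun s hs => (hc hs).1, ?_⟩, fun s hs => subset_sUnion_of_mem hs⟩
    rintro a ⟨s, hs, has⟩ b ⟨s', hs', hbs'⟩ hab
    rcases hchain.total hs hs' with h | h
    · exact (hc hs').2 a (h has) b hbs' hab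
    · exact (hc hs).2 a has b (h hbs') hab)
  refine ⟨S, hS.prop.1, hS.prop.2, fun x hx => ?_⟩
  by_contra hcon
  push Not at hcon
  have hxS : x ∉ S := fun hxS => hcon x hxS ⟨x, le_rfl, le_rfl⟩
  have h1 : insert x S ∈ {S : Set P | S ⊆ U ∧ ∀ a ∈ S, ∀ b ∈ S, a ≠ b → Incomp a b} := by
    refine ⟨insert_subset hx hS.prop.1, ?_⟩
    rintro a (rfl | ha) b (rfl | hb) hab
    · exact absurd rfl hab
    · exact (hcon b hb).symm
    · exact hcon a ha
    · exact hS.prop.2 a ha b hb hab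
  exact hxS (hS.le_of_ge h1 (subset_insert x S) (mem_insert x S))

/-- infinite antichains -/
theorem exists_infinite_anti (hP : Atomless P) : ∃ c : P → ℕ → P, (∀ b n, b ≤ c b n) ∧
    ∀ b n m, n ≠ m → Incomp (c b n) (c b m) := by
  choose q r hq hr hqr using hP
  have hit : ∀ b n m, n ≤ m → r^[n] b ≤ r^[m] b := by
    intro b n m h
    induction m, h using Nat.le_induction with
    | base => exact le_rfl
    | succ k _ ih =>
      rw [Function.iterate_succ_apply']
      exact ih.trans (hr _)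
  have key : ∀ b n m, n < m → Incomp (q (r^[n] b)) (q (r^[m] b)) := by
    intro b n m h
    have h1 : r^[n + 1] b ≤ q (r^[m] b) := (hit b (n + 1) m h).trans (hq _)
    rw [Function.iterate_succ_apply'] at h1
    exact (hqr _).mono le_rfl h1
  refine ⟨fun b n => q (r^[n] b), fun b n => (hit b 0 n (Nat.zero_le n)).trans (hq _), ?_⟩
  intro b n m h
  rcases lt_or_gt_of_ne h with h | h
  · exact key b n m h
  · exact (key b m n h).symm

end

/-! ### the levels -/

section

variable {P : Type} [PartialOrder P] (p : Om → P) (c : P → ℕ → P)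

/-- the conditions which know everything below level `α` -/
def Uset (α : Om) (A : ∀ β, β < α → Set P) : Set P :=
  {x | ∀ β (h : β < α), (∃ b ∈ A β h, b ≤ x ∧ ((∃ n, c b n ≤ x) ∨ ∀ n, Incomp (c b n) x)) ∧
    (p β ≤ x ∨ Incomp (p β) x)}

/-- the levels of the base tree -/
noncomputable def lev : Om → Set P :=
  WellFounded.fix (wellFounded_lt (α := Om)) fun α A => (exists_anti (Uset p c α A)).choose

theorem lev_eq (α : Om) : lev p c α = (exists_anti (Uset p c α fun β _ => lev p c β)).choose := by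
  unfold lev
  rw [WellFounded.fix_eq]

theorem lev_subset (α : Om) : lev p c α ⊆ Uset p c α fun β _ => lev p c β := by
  rw [lev_eq p c α]
  exact (exists_anti (Uset p c α fun β _ => lev p c β)).choose_spec.1

theorem lev_anti (α : Om) : ∀ a ∈ lev p c α, ∀ b ∈ lev p c α, a ≠ b → Incomp a b := by
  rw [lev_eq p c α]
  exact (exists_anti (Uset p c α fun β _ => lev p c β)).choose_spec.2.1

theorem lev_eq_of_comp {α : Om} {a b : P} (ha : a ∈ lev p c α) (hb : b ∈ lev p c α)
    (h : ∃ s, a ≤ s ∧ b ≤ s) : a = b := by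
  by_contra hne
  exact lev_anti p c α a ha b hb hne h

theorem lev_max' (α : Om) : ∀ x ∈ Uset p c α fun β _ => lev p c β, ∃ a ∈ lev p c α,
    ¬ Incomp a x := by
  have := (exists_anti (Uset p c α fun β _ => lev p c β)).choose_spec.2.2
  rw [← lev_eq p c α] at this
  exact this

variable (hdist : OmegaDistributive P)
include hdist

theorem dense_U (α : Om) : DenseOpen (Uset p c α fun β _ => lev p c β) := by
  induction α using WellFoundedLT.induction with
  | ind α ih =>
    have hmax : ∀ β < α, ∀ x : P, ∃ a ∈ lev p c β, ∃ y, a ≤ y ∧ x ≤ y := by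
      intro β hβ x
      obtain ⟨y, hxy, hy⟩ := (ih β hβ).2 x
      obtain ⟨a, ha, hay⟩ := lev_max' p c β y hy
      obtain ⟨z, h1, h2⟩ := not_not.1 hay
      exact ⟨a, ha, z, h1, hxy.trans h2⟩
    -- the dense open sets
    let D : Om → Set P := fun β => {x | (∃ b ∈ lev p c β, b ≤ x ∧
      ((∃ n, c b n ≤ x) ∨ ∀ n, Incomp (c b n) x)) ∧ (p β ≤ x ∨ Incomp (p β) x)}
    have hopen : ∀ β x y, x ∈ D β → x ≤ y → y ∈ D β := by
      rintro β x y ⟨⟨b, hb, hbx, h1⟩, h2⟩ hxy
      refine ⟨⟨b, hb, hbx.trans hxy, ?_⟩, ?_⟩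
      · rcases h1 with ⟨n, h1⟩ | h1
        · exact Or.inl ⟨n, h1.trans hxy⟩
        · exact Or.inr fun n => (h1 n).mono le_rfl hxy
      · rcases h2 with h2 | h2
        · exact Or.inl (h2.trans hxy)
        · exact Or.inr (h2.mono le_rfl hxy)
    have hD : ∀ β < α, DenseOpen (D β) := by
      intro β hβ
      refine ⟨hopen β, fun x => ?_⟩
      obtain ⟨a, ha, y, hay, hxy⟩ := hmax β hβ x
      -- decide `p β`
      obtain ⟨z, hyz, hz⟩ : ∃ z, y ≤ z ∧ (p β ≤ z ∨ Incomp (p β) z) := by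
        by_cases h : Incomp (p β) y
        · exact ⟨y, le_rfl, Or.inr h⟩
        · obtain ⟨z, h1, h2⟩ := not_not.1 h
          exact ⟨z, h2, Or.inl h1⟩
      obtain ⟨w, hzw, hw⟩ : ∃ w, z ≤ w ∧ ((∃ n, c a n ≤ w) ∨ ∀ n, Incomp (c a n) w) := by
        by_cases h : ∀ n, Incomp (c a n) z
        · exact ⟨z, le_rfl, Or.inr h⟩
        · push Not at h
          obtain ⟨n, hn⟩ := h
          obtain ⟨w, h1, h2⟩ := not_not.1 hn
          exact ⟨w, h2, Or.inl ⟨n, h1⟩⟩
      refine ⟨w, hxy.trans (hyz.trans hzw), ⟨a, ha, hay.trans (hyz.trans hzw), hw⟩, ?_⟩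
      rcases hz with hz | hz
      · exact Or.inl (hz.trans hzw)
      · exact Or.inr (hz.mono le_rfl hzw)
    refine ⟨fun x y hx hxy β hβ => hopen β x y (hx β hβ) hxy, fun x => ?_⟩
    obtain ⟨g, hg⟩ := exists_enum
    by_cases hne : (Iio α).Nonempty
    · obtain ⟨q, hxq, hq⟩ := hdist (fun n => D (g α n)) (fun n => hD _ (by
        have : g α n ∈ Iio α := by
          rw [← hg α hne]
          exact ⟨n, rfl⟩
        exact this)) x
      refine ⟨q, hxq, fun β hβ => ?_⟩
      obtain ⟨n, hn⟩ : β ∈ range (g α) := by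
        rw [hg α hne]
        exact hβ
      have := hq n
      rw [hn] at this
      exact this
    · refine ⟨x, le_rfl, fun β hβ => absurd ⟨β, hβ⟩ hne⟩

theorem lev_max (α : Om) (x : P) : ∃ a ∈ lev p c α, ∃ y, a ≤ y ∧ x ≤ y := by
  obtain ⟨y, hxy, hy⟩ := (dense_U p c hdist α).2 x
  obtain ⟨a, ha, hay⟩ := lev_max' p c α y hy
  obtain ⟨z, h1, h2⟩ := not_not.1 hay
  exact ⟨a, ha, z, h1, hxy.trans h2⟩

omit hdist

/-- the base tree -/
abbrev BTree : Type := {x : Om × P // x.2 ∈ lev p c x.1}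

include hdist

/-- a condition `p β` is met by every element of a later level which is compatible with it -/
theorem exists_above (x : P) (hx : ∃ β, p β = x) (γ : Om) : ∃ δ, γ ≤ δ ∧ ∃ a ∈ lev p c δ,
    x ≤ a := by
  obtain ⟨β, rfl⟩ := hx
  obtain ⟨δ, hδ⟩ := exists_gt_of_countable (S := {β, γ}) (by simp)
  have h1 : β < δ := hδ β (by simp)
  have h2 : γ < δ := hδ γ (by simp)
  obtain ⟨a, ha, y, hay, hy⟩ := lev_max p c hdist δ (p β)
  refine ⟨δ, h2.le, a, ha, ?_⟩
  rcases (lev_subset p c δ ha β h1).2 with h3 | h3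
  · exact h3
  · exact absurd ⟨y, hy, hay⟩ h3

/-- bounded monotone functions on the base tree are constant on some cone -/
theorem btree_const (hp : Function.Surjective p) [Nonempty P] (μ : BTree p c → ℝ)
    (hμ : Monotone μ) (hC : ∃ C, ∀ t, μ t ≤ C) : ∃ t, ∀ u, t ≤ u → μ u = μ t := by
  obtain ⟨C, hC⟩ := hC
  let h : BTree p c → ℝ := fun t => sSup (μ '' Ici t)
  have hbdd : ∀ t, BddAbove (μ '' Ici t) := fun t => ⟨C, by
    rintro _ ⟨u, _, rfl⟩
    exact hC u⟩
  have hle : ∀ t u, t ≤ u → μ u ≤ h t := fun t u htu => le_csSup (hbdd t) ⟨u, htu, rfl⟩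
  have hanti : ∀ t u, t ≤ u → h u ≤ h t := fun t u htu =>
    csSup_le_csSup (hbdd t) ⟨_, u, self_mem_Ici, rfl⟩ (image_mono (Ici_subset_Ici.2 htu))
  let D : ℕ → Set P := fun n => {x | ∃ t : BTree p c, t.1.2 ≤ x ∧ h t - μ t < 1 / ((n : ℝ) + 1)}
  have hD : ∀ n, DenseOpen (D n) := by
    intro n
    refine ⟨fun x y ⟨t, h1, h2⟩ hxy => ⟨t, h1.trans hxy, h2⟩, fun x => ?_⟩
    obtain ⟨δ, -, a, ha, hxa⟩ := exists_above p c hdist x (hp x) (Classical.choice (by
      obtain ⟨β, -⟩ := hp x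
      exact ⟨β⟩))
    let t : BTree p c := ⟨(δ, a), ha⟩
    obtain ⟨_, ⟨u, hu, rfl⟩, hlt⟩ := exists_lt_of_lt_csSup (⟨_, t, self_mem_Ici, rfl⟩ :
      (μ '' Ici t).Nonempty) (show h t - 1 / ((n : ℝ) + 1) < h t from by
        have : 0 < 1 / ((n : ℝ) + 1) := by positivity
        linarith)
    have hu' : t ≤ u := hu
    refine ⟨u.1.2, hxa.trans hu'.2, u, le_rfl, ?_⟩
    have := hanti t u hu'
    linarith
  obtain ⟨q, -, hq⟩ := hdist D hD (Classical.arbitrary P)
  choose s hs1 hs2 using hq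
  obtain ⟨γ, hγ⟩ := exists_gt_of_countable (S := range fun n => (s n).1.1) (countable_range _)
  obtain ⟨δ, hγδ, a, ha, hqa⟩ := exists_above p c hdist q (hp q) γ
  let t : BTree p c := ⟨(δ, a), ha⟩
  have hst : ∀ n, s n ≤ t := fun n =>
    ⟨(hγ _ ⟨n, rfl⟩).le.trans hγδ, (hs1 n).trans hqa⟩
  refine ⟨t, fun u htu => le_antisymm ?_ (hμ htu)⟩
  apply le_of_forall_pos_le_add
  intro ε hε
  obtain ⟨n, hn⟩ := exists_nat_one_div_lt hε
  have h1 := hle (s n) u ((hst n).trans htu)
  have h2 := hs2 n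
  have h3 := hμ (hst n)
  linarith

theorem btree_split (hc1 : ∀ b n, b ≤ c b n) (hc2 : ∀ b n m, n ≠ m → Incomp (c b n) (c b m))
    (t : BTree p c) : ∃ d : ℕ → BTree p c, (∀ i, t ≤ d i) ∧ d 0 ≠ t ∧
      ∀ i j, i ≠ j → ∀ r, d i ≤ r → ∀ r', d j ≤ r' → ∀ s, s ≤ r → s ≤ r' → s ≤ t := by
  obtain ⟨⟨α, a⟩, ha⟩ := t
  change a ∈ lev p c α at ha
  -- the next level
  obtain ⟨β, hαβ, hβ⟩ : ∃ β, α < β ∧ ∀ γ, α < γ → β ≤ γ := by
    obtain ⟨b, hb⟩ := exists_gt_of_countable (countable_singleton α)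
    have hne : (Ioi α).Nonempty := ⟨b, hb α rfl⟩
    refine ⟨wellFounded_lt.min (Ioi α) hne, wellFounded_lt.min_mem (Ioi α) hne, fun γ hγ => ?_⟩
    exact not_lt.1 (wellFounded_lt.not_lt_min (Ioi α) hγ)
  have hex : ∀ n, ∃ b ∈ lev p c β, c a n ≤ b := by
    intro n
    obtain ⟨b, hb, y, hby, hy⟩ := lev_max p c hdist β (c a n)
    obtain ⟨⟨a', ha', ha'b, h1⟩, -⟩ := lev_subset p c β hb α hαβ
    have haa : a' = a := lev_eq_of_comp p c ha' ha ⟨y, ha'b.trans hby, (hc1 a n).trans hy⟩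
    subst haa
    rcases h1 with ⟨m, hm⟩ | h1
    · by_cases hmn : m = n
      · exact ⟨b, hb, hmn ▸ hm⟩
      · exact absurd ⟨y, hm.trans hby, hy⟩ (hc2 a' m n hmn)
    · exact absurd ⟨y, hy, hby⟩ (h1 n)
  choose b hb1 hb2 using hex
  refine ⟨fun n => ⟨(β, b n), hb1 n⟩, fun n => ⟨hαβ.le, (hc1 a n).trans (hb2 n)⟩, ?_, ?_⟩
  · intro h
    have := congrArg (fun x : BTree p c => x.1.1) h
    exact hαβ.ne' this
  · rintro i j hij ⟨⟨ρ, r⟩, hr⟩ ⟨hir1, hir2⟩ ⟨⟨ρ', r'⟩, hr'⟩ ⟨hjr1, hjr2⟩ ⟨⟨σ, s⟩, hs⟩ ⟨hsr1, hsr2⟩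
      ⟨hsr1', hsr2'⟩
    change β ≤ ρ at hir1
    change b i ≤ r at hir2
    change β ≤ ρ' at hjr1
    change b j ≤ r' at hjr2
    change σ ≤ ρ at hsr1
    change s ≤ r at hsr2
    change σ ≤ ρ' at hsr1'
    change s ≤ r' at hsr2'
    change s ∈ lev p c σ at hs
    rcases lt_or_ge σ β with h | h
    · -- `σ ≤ α`
      have hσα : σ ≤ α := by
        by_contra hlt
        exact absurd (hβ σ (not_le.1 hlt)) (not_le.2 h)
      refine ⟨hσα, ?_⟩
      change s ≤ a
      rcases hσα.lt_or_eq with h1 | h1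
      · obtain ⟨⟨a', ha', ha'a, -⟩, -⟩ := lev_subset p c α ha σ h1
        have : a' = s := lev_eq_of_comp p c ha' hs
          ⟨r, ha'a.trans ((hc1 a i).trans ((hb2 i).trans hir2)), hsr2⟩
        rw [← this]
        exact ha'a
      · subst h1
        exact (lev_eq_of_comp p c hs ha ⟨r, hsr2, (hc1 a i).trans ((hb2 i).trans hir2)⟩).le
    · -- impossible
      exfalso
      -- the element of level `β` below `s`
      obtain ⟨x, hx, hxs⟩ : ∃ x ∈ lev p c β, x ≤ s := by
        rcases h.lt_or_eq with h1 | h1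
        · obtain ⟨⟨x, hx, hxs, -⟩, -⟩ := lev_subset p c σ hs β h1
          exact ⟨x, hx, hxs⟩
        · subst h1
          exact ⟨s, hs, le_rfl⟩
      have e1 : x = b i := lev_eq_of_comp p c hx (hb1 i) ⟨r, hxs.trans hsr2, hir2⟩
      have e2 : x = b j := lev_eq_of_comp p c hx (hb1 j) ⟨r', hxs.trans hsr2', hjr2⟩
      apply hc2 a i j hij
      exact ⟨x, by rw [e1]; exact hb2 i, by rw [e2]; exact hb2 j⟩

theorem mk_btree [Nonempty P] (hP : #P ≤ ℵ₁) : #(BTree p c) = ℵ₁ := by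
  apply le_antisymm
  · have h1 : #(BTree p c) ≤ #(Om × P) := mk_le_of_injective Subtype.val_injective
    refine h1.trans ?_
    rw [mk_prod, lift_id, lift_id, mk_Om]
    exact (mul_le_mul' le_rfl hP).trans (mul_eq_self (aleph0_le_aleph 1)).le
  · rw [← mk_Om]
    have : ∀ α, ∃ a, a ∈ lev p c α := fun α => by
      obtain ⟨a, ha, -⟩ := lev_max p c hdist α (Classical.arbitrary P)
      exact ⟨a, ha⟩
    choose a ha using this
    apply mk_le_of_injective (f := fun α : Om => (⟨(α, a α), ha α⟩ : BTree p c))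
    intro α β h
    exact congrArg (fun x : BTree p c => x.1.1) h

end

end Pool.Agent.RR59
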